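import Pool.Agent.N887.HN.C2a

/-!
HN/C2, part 2: the places at infinity, the places over finite points, and the sum over all places.
-/

set_option autoImplicit false
set_option linter.unusedSectionVars false

open FF Pool.Agent.W603.LV Pool.Agent.Y184.NT IntermediateField
open Pool.Agent.N162.CV (StDERa StDERb StDERc StRES)
open Pool.Agent.N849.CV (Val VS charZ euler_gen val_der val_log val_tder aeval_smul
  totalDegree_pderiv_lt' const_of_pderiv)
open Pool.Agent.N162.HN (Good mu At)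

namespace Pool.Agent.N887.HN

section places

variable {n : ℕ} {Ω E : Type} [Field Ω] [Algebra ℂ Ω] [Field E] [Algebra ℂ E] [Algebra Ω E]
  [IsScalarTower ℂ Ω E] [IsAlgClosed Ω] [IsFF Ω E]

/-- a vector dual to the gradient -/
theorem dual_c {K : Type} [Field K] [Algebra ℂ K] {F : MvPolynomial (Fin (n + 2)) ℂ} (hs : Sm F)
    {p : Fin (n + 2) → K} (hp : p 1 = 1) : ∃ c : Fin (n + 2) → K,
      ∑ l, MvPolynomial.aeval p (MvPolynomial.pderiv l F) * c l = 1 := by
  obtain ⟨M, A, hA⟩ := Pool.Agent.Y988.NT.null_cert hs 1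
  refine ⟨fun l => MvPolynomial.aeval p (A l), ?_⟩
  have h1 := congrArg (MvPolynomial.aeval p) hA
  rw [map_pow, MvPolynomial.aeval_X, hp, one_pow, map_sum] at h1
  rw [h1]
  refine Finset.sum_congr rfl fun l _ => ?_
  rw [map_mul]
  ring

/-- the vanishing of the determinant at infinity -/
theorem det_zero {K : Type} [Field K] [Algebra ℂ K] {F : MvPolynomial (Fin (n + 2)) ℂ} {d : ℕ}
    (hn : 1 ≤ n) (hF : F.IsHomogeneous d)
    (hF1 : MvPolynomial.eval (Pi.single (Fin.last (n + 1)) 1) F ≠ 0) {p : Fin (n + 2) → K}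
    (hp0 : p 0 = 0) (hp1 : p 1 = 1) (hFp : MvPolynomial.aeval p F = 0) (c : Fin (n + 2) → K)
    (D : Fin n → Derivation ℂ K K) : (rows c p D).det = 0 := by
  obtain ⟨k, rfl⟩ : ∃ k, n = k + 1 := ⟨n - 1, by omega⟩
  obtain ⟨u, hu, hu2⟩ := jac (fun j : Fin (k + 1) => p j.succ.succ) D _ _ (Nat.lt_succ_self _)
    (restr_ne hF hF1) (by
      rw [MvPolynomial.comp_aeval_apply]
      refine Eq.trans ?_ hFp
      congr 2
      funext j
      refine Fin.cases ?_ (fun j => ?_) j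
      · simp [hp0]
      · refine Fin.cases ?_ (fun j => ?_) j
        · simp only [Fin.cons_succ, Fin.cons_zero, map_one]
          exact hp1.symm
        · simp)
  exact det_inf c D hp0 hp1 hu hu2

/-- the places at infinity -/
theorem inf_place (ha : StDERa) (hb : StDERb) {F : MvPolynomial (Fin (n + 2)) ℂ} {d m : ℕ}
    (hn : 1 ≤ n) (hs : Sm F) (hF : F.IsHomogeneous d) (hd : m + n + 2 = d)
    (hF1 : MvPolynomial.eval (Pi.single (Fin.last (n + 1)) 1) F ≠ 0)
    {D : Fin n → Derivation ℂ Ω Ω} {δ : Fin n → Derivation ℂ E E}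
    (hδ : ∀ i a, δ i (algebraMap Ω E a) = algebraMap Ω E (D i a)) {θ : Derivation Ω E E}
    {X : Fin (n + 2) → E} (hX0 : X 0 = 1) (hθ : θ (X 1) = 1) (hδx : ∀ i, δ i (X 1) = 0)
    {P : MvPolynomial (Fin (n + 2)) Ω} (hP : P.IsHomogeneous m) {v : Place Ω E}
    (hv : v.ord (X 1) < 0) (hreg : ∀ i, Ge v 0 (X i / X 1)) (hf : MvPolynomial.aeval X F ≠ 0) :
    Ge v 1 (X 1 * (MvPolynomial.aeval X P * (mat (fun j => θ (X j)) X
      (fun i j => δ i (X j))).det / MvPolynomial.aeval X F)) := by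
  have hc0 : CharZero Ω := charZ
  obtain ⟨x, hx⟩ : ∃ x, x = X 1 := ⟨_, rfl⟩
  rw [← hx] at hθ hδx hv hreg ⊢
  have hx0 : x ≠ 0 := by
    rintro rfl
    rw [v.ord_zero] at hv
    exact lt_irrefl _ hv
  obtain ⟨Y, hY⟩ : ∃ Y : Fin (n + 2) → E, Y = fun j => x⁻¹ * X j := ⟨_, rfl⟩
  have hXY : X = fun j => x * Y j := by
    funext j
    rw [hY]
    field_simp
  have hYr : ∀ j, Ge v 0 (Y j) := by
    intro j
    have := hreg j
    rw [div_eq_inv_mul] at this
    rw [hY]
    exact this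
  choose p hp using fun j => exists_const v (hYr j)
  have hpY : ∀ j, Val v (Y j) (p j) := hp
  obtain ⟨t, ht⟩ : ∃ t, t = x⁻¹ := ⟨_, rfl⟩
  have htv : 0 < v.ord t := by
    rw [ht, v.ord_inv]
    omega
  have hp0 : p 0 = 0 := by
    refine (hpY 0).uniq (Val.zero_iff.2 (Or.inr ?_))
    rw [hY]
    show 1 ≤ v.ord (x⁻¹ * X 0)
    rw [hX0, mul_one, ← ht]
    omega
  have hp1 : p 1 = 1 := by
    refine (hpY 1).uniq ?_
    rw [hY]
    show Val v (x⁻¹ * X 1) 1
    rw [← hx, inv_mul_cancel₀ hx0]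
    have := Val.const (v := v) (1 : Ω)
    rwa [map_one] at this
  -- the derivations
  obtain ⟨θ', hθ'⟩ : ∃ θ' : Derivation Ω E E, θ' = (-(x ^ 2)) • θ := ⟨_, rfl⟩
  have hθ'a : ∀ g, θ' g = -(x ^ 2) * θ g := by
    intro g
    rw [hθ']
    rfl
  have hθt : θ' t = 1 := by
    rw [hθ'a, ht, Derivation.leibniz_inv, hθ, smul_eq_mul]
    field_simp
  have hδt : ∀ i, δ i t = 0 := by
    intro i
    rw [ht, Derivation.leibniz_inv, hδx, smul_zero]
  have hXd : (fun i j => δ i (X j)) = fun i j => x * δ i (Y j) := by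
    funext i j
    rw [hXY]
    show δ i (x * Y j) = _
    rw [Derivation.leibniz, hδx, smul_zero, add_zero, smul_eq_mul]
  have hXθ : (fun j => θ (X j)) = fun j => Y j + x * θ (Y j) := by
    funext j
    rw [hXY]
    show θ (x * Y j) = _
    rw [Derivation.leibniz, hθ, smul_eq_mul, smul_eq_mul, mul_one, add_comm]
  have hW : (mat (fun j => θ (X j)) X (fun i j => δ i (X j))).det =
      x ^ (n + 2) * (mat (fun j => θ (Y j)) Y (fun i j => δ i (Y j))).det := by
    rw [hXd, hXθ, ← mat_inf, ← hXY]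
  have hPX : MvPolynomial.aeval X P = x ^ m * MvPolynomial.aeval Y P := by
    conv_lhs => rw [hXY]
    rw [aeval_smul hP]
  have hFX : MvPolynomial.aeval X F = x ^ d * MvPolynomial.aeval Y F := by
    conv_lhs => rw [hXY]
    rw [aeval_smul hF]
  have hG : MvPolynomial.aeval Y F ≠ 0 := by
    intro h0
    apply hf
    rw [hFX, h0, mul_zero]
  have hWθ : x * (mat (fun j => θ (Y j)) Y (fun i j => δ i (Y j))).det =
      -(mat (fun j => t * θ' (Y j)) Y (fun i j => δ i (Y j))).det := by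
    have h1 : (fun j => t * θ' (Y j)) = fun j => (-x) * θ (Y j) := by
      funext j
      rw [hθ'a, ht]
      field_simp
    rw [h1, mat_smul]
    ring
  have hmain : x * (MvPolynomial.aeval X P * (mat (fun j => θ (X j)) X
      (fun i j => δ i (X j))).det / MvPolynomial.aeval X F) = -(MvPolynomial.aeval Y P *
      ((mat (fun j => t * θ' (Y j)) Y (fun i j => δ i (Y j))).det /
        MvPolynomial.aeval Y F)) := by
    rw [hW, hPX, hFX, ← hd]
    have h1 : x * (x ^ m * MvPolynomial.aeval Y P * (x ^ (n + 2) *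
        (mat (fun j => θ (Y j)) Y (fun i j => δ i (Y j))).det) /
          (x ^ (m + n + 2) * MvPolynomial.aeval Y F)) =
        MvPolynomial.aeval Y P * ((x * (mat (fun j => θ (Y j)) Y
          (fun i j => δ i (Y j))).det) / MvPolynomial.aeval Y F) := by
      rw [show m + n + 2 = m + (n + 2) by ring, pow_add x m (n + 2)]
      have hxn : x ^ (n + 2) ≠ 0 := pow_ne_zero _ hx0
      have hxm : x ^ m ≠ 0 := pow_ne_zero _ hx0
      generalize x ^ (n + 2) = a at hxn
      generalize x ^ m = b at hxm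
      field_simp
    rw [h1, hWθ]
    ring
  rw [hmain]
  refine Ge.neg ?_
  have hPr : Ge v 0 (MvPolynomial.aeval Y P) := (Val.aeval hpY P).reg
  rw [← Val.zero_iff]
  refine Val.reg_mul hPr ?_
  obtain ⟨h1, h2⟩ := local_val ha hb hF hδ htv hθt hδt hpY hG
  have hGr : 0 ≤ v.ord (MvPolynomial.aeval Y F) :=
    ((Val.aevalC hpY F).reg).resolve_left hG
  rcases hGr.eq_or_lt with hk | hk
  · exact h1 hk.symm
  · obtain ⟨hFp, h3⟩ := h2 hk
    obtain ⟨c, hc⟩ := dual_c hs hp1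
    have h4 := h3 c hc
    rwa [det_zero hn hF hF1 hp0 hp1 hFp c D, mul_zero] at h4

/-- the function of the residue theorem -/
noncomputable def uu (F : MvPolynomial (Fin (n + 2)) ℂ) (P : MvPolynomial (Fin (n + 2)) Ω)
    (X : Fin (n + 2) → E) (δ : Fin n → Derivation ℂ E E) (θ : Derivation Ω E E) : E :=
  MvPolynomial.aeval X P * (mat (fun j => θ (X j)) X (fun i j => δ i (X j))).det /
    MvPolynomial.aeval X F

/-- the places over finite points -/
theorem fin_place (ha : StDERa) (hb : StDERb) {F : MvPolynomial (Fin (n + 2)) ℂ} {d : ℕ}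
    (hF : F.IsHomogeneous d) {D : Fin n → Derivation ℂ Ω Ω} {δ : Fin n → Derivation ℂ E E}
    (hδ : ∀ i a, δ i (algebraMap Ω E a) = algebraMap Ω E (D i a)) {θ : Derivation Ω E E}
    {X : Fin (n + 2) → E} (hθ : θ (X 1) = 1) (hδx : ∀ i, δ i (X 1) = 0)
    (P : MvPolynomial (Fin (n + 2)) Ω) {v : Place Ω E} {p : Fin (n + 2) → Ω}
    (hp : ∀ j, Val v (X j) (p j))
    (htr : X 1 - algebraMap Ω E (p 1) ≠ 0) (hf : MvPolynomial.aeval X F ≠ 0) :
    (v.ord (MvPolynomial.aeval X F) = 0 →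
      Val v ((X 1 - algebraMap Ω E (p 1)) * uu F P X δ θ) 0) ∧
    (0 < v.ord (MvPolynomial.aeval X F) → MvPolynomial.aeval p F = 0 ∧
      ∀ c : Fin (n + 2) → Ω,
      ∑ l, MvPolynomial.aeval p (MvPolynomial.pderiv l F) * c l = 1 →
      Val v ((X 1 - algebraMap Ω E (p 1)) * uu F P X δ θ)
        ((v.ord (MvPolynomial.aeval X F) : Ω) / (v.ord (X 1 - algebraMap Ω E (p 1)) : Ω) *
          ((rows c p D).det * MvPolynomial.eval p P))) := by
  obtain ⟨t, ht⟩ : ∃ t, t = X 1 - algebraMap Ω E (p 1) := ⟨_, rfl⟩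
  rw [← ht] at htr ⊢
  have htv : 0 < v.ord t := by
    have h1 := (hp 1).resolve_left (by rwa [ht] at htr)
    rw [← ht] at h1
    omega
  have hθt : θ t = 1 := by
    rw [ht, map_sub, hθ, θ.map_algebraMap, sub_zero]
  obtain ⟨δ', hδ'⟩ : ∃ δ' : Fin n → Derivation ℂ E E, δ' = fun i =>
    δ i + (algebraMap Ω E (D i (p 1))) • (θ.restrictScalars ℂ) := ⟨_, rfl⟩
  have hδ'a : ∀ i g, δ' i g = δ i g + algebraMap Ω E (D i (p 1)) * θ g := by
    intro i g
    rw [hδ']
    rfl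
  have hδ'e : ∀ i a, δ' i (algebraMap Ω E a) = algebraMap Ω E (D i a) := by
    intro i a
    rw [hδ'a, hδ, θ.map_algebraMap, mul_zero, add_zero]
  have hδ't : ∀ i, δ' i t = 0 := by
    intro i
    rw [hδ'a, hθt, ht, map_sub, hδx, hδ]
    ring
  have hmain : t * uu F P X δ θ = MvPolynomial.aeval X P *
      ((mat (fun j => t * θ (X j)) X (fun i j => δ' i (X j))).det /
        MvPolynomial.aeval X F) := by
    have h1 : (mat (fun j => t * θ (X j)) X (fun i j => δ' i (X j))).det =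
        t * (mat (fun j => θ (X j)) X (fun i j => δ i (X j))).det := by
      rw [mat_smul]
      congr 1
      simp only [hδ'a]
      exact mat_first (fun i => algebraMap Ω E (D i (p 1))) (fun j => θ (X j)) X
        (fun i j => δ i (X j))
    rw [h1]
    unfold uu
    ring
  obtain ⟨h1, h2⟩ := local_val ha hb hF hδ'e htv hθt hδ't hp hf
  have hPv := Val.aeval hp P
  rw [hmain]
  constructor
  · intro h0
    exact Val.reg_mul hPv.reg (h1 h0)
  · intro hk
    obtain ⟨hFp, h3⟩ := h2 hk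
    refine ⟨hFp, fun c hc => ?_⟩
    have h4 := hPv.mul (h3 c hc)
    have h5 : MvPolynomial.eval p P * ((v.ord (MvPolynomial.aeval X F) : Ω) / (v.ord t : Ω) *
        (rows c p D).det) =
        (v.ord (MvPolynomial.aeval X F) : Ω) / (v.ord t : Ω) *
          ((rows c p D).det * MvPolynomial.eval p P) := by
      ring
    rwa [h5] at h4

theorem c2_aux (ha : StDERa) (hb : StDERb) (hc : StDERc) (hr : StRES)
    {F : MvPolynomial (Fin (n + 2)) ℂ} {d m : ℕ} (hn : 1 ≤ n) (hs : Sm F)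
    (hF : F.IsHomogeneous d) (hd : m + n + 2 = d)
    (hF1 : MvPolynomial.eval (Pi.single (Fin.last (n + 1)) 1) F ≠ 0) {X : Fin (n + 2) → E}
    (hX : Good Ω X) (hf : MvPolynomial.aeval X F ≠ 0) (D : Fin n → Derivation ℂ Ω Ω)
    (c : (Fin (n + 2) → Ω) → Fin (n + 2) → Ω)
    (hcc : ∀ p, p 0 = 1 → MvPolynomial.aeval p F = 0 →
      ∑ l, MvPolynomial.aeval p (MvPolynomial.pderiv l F) * c p l = 1)
    (P : MvPolynomial (Fin (n + 2)) Ω) (hP : P.IsHomogeneous m)
    (Q : Finset (Fin (n + 2) → Ω))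
    (hQ : ∀ p, mu X (MvPolynomial.aeval X F) p ≠ 0 → p ∈ Q) :
    ∑ p ∈ Q, (mu X (MvPolynomial.aeval X F) p : Ω) *
      ((rows (c p) p D).det * MvPolynomial.eval p P) = 0 := by
  classical
  have hc0 : CharZero Ω := charZ
  obtain ⟨⟨θ, hθ⟩, hder⟩ := hc Ω E (X 1) hX.tr
  choose δ hδ hδx using fun i : Fin n => hder (D i)
  have hval : ∀ v : Place Ω E, Ge v 0 (X 1) → ∃ p : Fin (n + 2) → Ω, ∀ j, Val v (X j) (p j) := by
    intro v hv
    choose p hp using fun j => exists_const v (hX.fin v hv j)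
    exact ⟨p, hp⟩
  choose! pt hpt using hval
  have hpt0 : ∀ v, Ge v 0 (X 1) → pt v 0 = 1 := by
    intro v hv
    refine (hpt v hv 0).uniq ?_
    rw [hX.one]
    have := Val.const (v := v) (1 : Ω)
    rwa [map_one] at this
  obtain ⟨f, hfd⟩ : ∃ f : E, f = MvPolynomial.aeval X F := ⟨_, rfl⟩
  rw [← hfd] at hf hQ ⊢
  have hfr : ∀ v : Place Ω E, Ge v 0 (X 1) → 0 ≤ v.ord f := by
    intro v hv
    have h1 := Val.reg (Val.aevalC (E := E) (hpt v hv) F)
    rw [← hfd] at h1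
    exact h1.resolve_left hf
  have hx : ∀ a : Ω, X 1 - algebraMap Ω E a ≠ 0 := by
    intro a h0
    apply hX.tr
    rw [sub_eq_zero.1 h0]
    exact isAlgebraic_algebraMap a
  -- the zeros of `f`
  obtain ⟨Z, hZ⟩ : ∃ Z : Finset (Place Ω E), ∀ v, v ∈ Z ↔ Ge v 0 (X 1) ∧ 0 < v.ord f := by
    by_cases halg : IsAlgebraic Ω f
    · refine ⟨∅, fun v => ?_⟩
      rw [v.ord_eq_zero_of_isAlgebraic hf halg]
      simp
    · obtain ⟨S, hS, -, -⟩ := zeros (k := Ω) (K := E) (f := f) halg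
      refine ⟨S.filter fun v => Ge v 0 (X 1), fun v => ?_⟩
      rw [Finset.mem_filter, hS]
      exact and_comm
  obtain ⟨Gp, hGp⟩ : ∃ Gp : (Fin (n + 2) → Ω) → Ω, Gp = fun p =>
    (rows (c p) p D).det * MvPolynomial.eval p P := ⟨_, rfl⟩
  obtain ⟨rho, hrho⟩ : ∃ rho : Place Ω E → Ω, rho = fun v => if v ∈ Z then
    (v.ord f : Ω) / (v.ord (X 1 - algebraMap Ω E (pt v 1)) : Ω) * Gp (pt v) else 0 := ⟨_, rfl⟩
  obtain ⟨-, hres, -⟩ := hr Ω E (X 1) hX.tr (uu F P X δ θ) (fun v => pt v 1) rho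
    (fun v hv => hpt v hv 1)
    (by
      intro v hv
      obtain ⟨h1, h2⟩ := fin_place ha hb hF hδ hθ hδx P (hpt v hv) (hx _) (by rwa [← hfd])
      rw [← hfd] at h1 h2
      show Val v ((X 1 - algebraMap Ω E (pt v 1)) * uu F P X δ θ) (rho v)
      rw [hrho]
      beta_reduce
      by_cases hvZ : v ∈ Z
      · rw [if_pos hvZ, hGp]
        obtain ⟨h3, h4⟩ := h2 ((hZ v).1 hvZ).2
        exact h4 _ (hcc _ (hpt0 v hv) h3)
      · rw [if_neg hvZ]
        apply h1
        by_contra hne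
        apply hvZ
        rw [hZ]
        exact ⟨hv, lt_of_le_of_ne (hfr v hv) (Ne.symm hne)⟩)
    (by
      intro v hv
      have h1 := inf_place ha hb hn hs hF hd hF1 hδ hX.one hθ hδx hP hv (hX.inf v hv)
        (by rwa [← hfd])
      exact h1)
  have hsum := hres Z (fun v hv => ((hZ v).1 hv).1) (fun v _ hne => by
    by_contra hvZ
    apply hne
    rw [hrho]
    beta_reduce
    rw [if_neg hvZ])
  have hsum2 : ∑ v ∈ Z, (v.ord f : Ω) * Gp (pt v) = 0 := by
    rw [← hsum]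
    refine Finset.sum_congr rfl fun v hv => ?_
    have h0 := ((hZ v).1 hv).1
    have h1 := (hpt v h0 1).resolve_left (hx _)
    have h2 : (v.ord (X 1 - algebraMap Ω E (pt v 1)) : Ω) ≠ 0 := by
      have : v.ord (X 1 - algebraMap Ω E (pt v 1)) ≠ 0 := by omega
      exact_mod_cast this
    rw [hrho]
    beta_reduce
    rw [if_pos hv]
    field_simp
  -- the multiplicities
  have hmu : ∀ p, mu X f p = ∑ v ∈ Z.filter (fun v => pt v = p), v.ord f := by
    intro p
    unfold mu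
    apply finsum_mem_eq_sum_of_inter_support_eq
    ext v
    simp only [Set.mem_inter_iff, Set.mem_ofPred_eq, Function.mem_support, Finset.coe_filter]
    constructor
    · rintro ⟨h1, h2⟩
      have h3 : Ge v 0 (X 1) := Val.reg (h1 1)
      refine ⟨⟨(hZ v).2 ⟨h3, lt_of_le_of_ne (hfr v h3) (Ne.symm h2)⟩, ?_⟩, h2⟩
      funext j
      exact (hpt v h3 j).uniq (h1 j)
    · rintro ⟨⟨h1, h2⟩, h3⟩
      refine ⟨fun j => ?_, h3⟩
      rw [← h2]
      exact hpt v ((hZ v).1 h1).1 j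
  have hmaps : ∀ v ∈ Z, pt v ∈ Q := by
    intro v hv
    apply hQ
    rw [hmu]
    refine (Finset.sum_pos (fun w hw => ?_) ⟨v, ?_⟩).ne'
    · exact ((hZ w).1 (Finset.mem_filter.1 hw).1).2
    · exact Finset.mem_filter.2 ⟨hv, rfl⟩
  rw [← hsum2, ← Finset.sum_fiberwise_of_maps_to hmaps]
  refine Finset.sum_congr rfl fun p _ => ?_
  rw [hmu, Int.cast_sum, Finset.sum_mul]
  refine Finset.sum_congr rfl fun v hv => ?_
  rw [(Finset.mem_filter.1 hv).2, hGp]

end places

/-- **HN/C2** -/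
theorem c2_ (ha : StDERa) (hb : StDERb) (hc : StDERc) (hr : StRES) :
    Pool.Agent.N162.HN.StC2 := by
  intro n Ω E _ _ _ _ _ _ F d m hn hs hF hd hF1 X hX hf D c hcc P hP Q hQ
  let _ : Algebra ℂ E := ((algebraMap Ω E).comp (algebraMap ℂ Ω)).toAlgebra
  have : IsScalarTower ℂ Ω E := IsScalarTower.of_algebraMap_eq fun _ => rfl
  have h1 : Pool.Agent.N162.HN.cmp Ω F X = MvPolynomial.aeval X F := by
    unfold Pool.Agent.N162.HN.cmp
    rw [MvPolynomial.aeval_map_algebraMap]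
  rw [h1] at hf hQ ⊢
  exact c2_aux ha hb hc hr hn hs hF hd hF1 hX hf D c hcc P hP Q hQ

end Pool.Agent.N887.HN
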