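import Pool.Agent.N162.HN.Stm
import Pool.Agent.N849.CV.C2b

/-!
HN/C2, part 1: determinants, the Jacobian determinant of dependent functions, the computation at
one place.
-/

set_option autoImplicit false
set_option linter.unusedSectionVars false

open FF Pool.Agent.W603.LV Pool.Agent.Y184.NT IntermediateField
open Pool.Agent.N162.CV (StDERa StDERb StDERc StRES)
open Pool.Agent.N849.CV (Val VS charZ euler_gen val_der val_log val_tder aeval_smul
  totalDegree_pderiv_lt' const_of_pderiv)

namespace Pool.Agent.N887.HN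

/-! ### determinants -/

section det

variable {R : Type} {n : ℕ}

/-- the matrix with the rows `a`, `b`, `r i` -/
def mat (a b : Fin (n + 2) → R) (r : Fin n → Fin (n + 2) → R) :
    Matrix (Fin (n + 2)) (Fin (n + 2)) R :=
  Matrix.of (Fin.cons a (Fin.cons b r : Fin (n + 1) → Fin (n + 2) → R))

theorem rows_eq {K : Type} [Field K] [Algebra ℂ K] (c p : Fin (n + 2) → K)
    (D : Fin n → Derivation ℂ K K) : rows c p D = mat c p (fun i j => D i (p j)) := rfl

theorem mat_zero (a b : Fin (n + 2) → R) (r : Fin n → Fin (n + 2) → R) (j : Fin (n + 2)) :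
    mat a b r 0 j = a j := rfl

theorem mat_one (a b : Fin (n + 2) → R) (r : Fin n → Fin (n + 2) → R) (j : Fin (n + 2)) :
    mat a b r (Fin.succ 0) j = b j := rfl

theorem mat_ss (a b : Fin (n + 2) → R) (r : Fin n → Fin (n + 2) → R) (i : Fin n)
    (j : Fin (n + 2)) : mat a b r i.succ.succ j = r i j := rfl

variable [CommRing R]

theorem cram {N : ℕ} (M : Matrix (Fin N) (Fin N) R) (g c : Fin N → R) :
    (∑ l, g l * c l) * M.det = ∑ i, (∑ l, g l * M i l) * (M.updateRow i c).det := by
  have h := Matrix.mulVec_cramer M.transpose c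
  rw [Matrix.det_transpose] at h
  have h2 : ∀ l, ∑ i, M i l * (M.updateRow i c).det = M.det * c l := by
    intro l
    have := congrFun h l
    simp only [Matrix.mulVec, dotProduct, Matrix.cramer_transpose_apply, Matrix.transpose_apply,
      Pi.smul_apply, smul_eq_mul] at this
    exact this
  calc (∑ l, g l * c l) * M.det = ∑ l, g l * (M.det * c l) := by
        rw [Finset.sum_mul]
        exact Finset.sum_congr rfl fun l _ => by ring
    _ = ∑ l, ∑ i, g l * (M i l * (M.updateRow i c).det) := by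
        refine Finset.sum_congr rfl fun l _ => ?_
        rw [← h2, Finset.mul_sum]
    _ = ∑ i, ∑ l, g l * (M i l * (M.updateRow i c).det) := Finset.sum_comm
    _ = _ := by
        refine Finset.sum_congr rfl fun i _ => ?_
        rw [Finset.sum_mul]
        exact Finset.sum_congr rfl fun l _ => by ring

theorem mat_smul (s : R) (a b : Fin (n + 2) → R) (r : Fin n → Fin (n + 2) → R) :
    (mat (fun j => s * a j) b r).det = s * (mat a b r).det := by
  have h := Matrix.det_mul_column (Fin.cons s (fun _ => 1) : Fin (n + 2) → R) (mat a b r)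
  rw [Fin.prod_univ_succ] at h
  simp only [Fin.cons_zero, Fin.cons_succ, Finset.prod_const_one, mul_one] at h
  rw [← h]
  congr 1
  ext i j
  refine Fin.cases ?_ (fun i => ?_) i
  · rfl
  · show _ = (1 : R) * _
    rw [one_mul]
    rfl

theorem mat_scale (x : R) (a b : Fin (n + 2) → R) (r : Fin n → Fin (n + 2) → R) :
    (mat a (fun j => x * b j) (fun i j => x * r i j)).det = x ^ (n + 1) * (mat a b r).det := by
  have h := Matrix.det_mul_column (Fin.cons 1 (fun _ => x) : Fin (n + 2) → R) (mat a b r)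
  rw [Fin.prod_univ_succ] at h
  simp only [Fin.cons_zero, Fin.cons_succ, Finset.prod_const, Finset.card_univ,
    Fintype.card_fin, one_mul] at h
  rw [← h]
  congr 1
  ext i j
  refine Fin.cases ?_ (fun i => ?_) i
  · show _ = (1 : R) * _
    rw [one_mul]
    rfl
  · refine Fin.cases ?_ (fun i => ?_) i
    · rfl
    · rfl

theorem mat_first (β : Fin n → R) (a b : Fin (n + 2) → R) (r : Fin n → Fin (n + 2) → R) :
    (mat a b (fun i j => r i j + β i * a j)).det = (mat a b r).det := by
  refine Matrix.det_eq_of_forall_row_eq_smul_add_const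
    (Fin.cons 0 (Fin.cons 0 β) : Fin (n + 2) → R) 0 rfl fun i j => ?_
  refine Fin.cases ?_ (fun i => ?_) i
  · show a j = a j + 0 * _
    rw [zero_mul, add_zero]
  · refine Fin.cases ?_ (fun i => ?_) i
    · show b j = b j + 0 * _
      rw [zero_mul, add_zero]
    · rfl

theorem mat_second (a b : Fin (n + 2) → R) (r : Fin n → Fin (n + 2) → R) :
    (mat (fun j => b j + a j) b r).det = (mat a b r).det := by
  refine Matrix.det_eq_of_forall_row_eq_smul_add_const
    (Fin.cons 1 (fun _ => 0) : Fin (n + 2) → R) (Fin.succ 0) rfl fun i j => ?_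
  refine Fin.cases ?_ (fun i => ?_) i
  · show b j + a j = a j + 1 * b j
    ring
  · show _ = _ + 0 * _
    rw [zero_mul, add_zero]
    rfl

theorem mat_inf (x : R) (a b : Fin (n + 2) → R) (r : Fin n → Fin (n + 2) → R) :
    (mat (fun j => b j + x * a j) (fun j => x * b j) (fun i j => x * r i j)).det =
      x ^ (n + 2) * (mat a b r).det := by
  rw [mat_scale, mat_second (fun j => x * a j), mat_smul]
  ring

end det

/-! ### the Jacobian determinant -/

theorem jac {K : Type} [Field K] [Algebra ℂ K] {n : ℕ} (y : Fin n → K)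
    (D : Fin n → Derivation ℂ K K) (N : ℕ) : ∀ h : MvPolynomial (Fin n) ℂ, h.totalDegree < N →
    h ≠ 0 → MvPolynomial.aeval y h = 0 → ∃ u : Fin n → K, u ≠ 0 ∧
      ∀ i, ∑ j, D i (y j) * u j = 0 := by
  induction N with
  | zero => intro h hN; omega
  | succ N ih =>
    intro h hN h0 hy
    by_cases hall : ∀ i, MvPolynomial.aeval y (MvPolynomial.pderiv i h) = 0
    · by_cases hall2 : ∀ i, MvPolynomial.pderiv i h = 0
      · exfalso
        have h1 := const_of_pderiv h hall2
        rw [h1, MvPolynomial.aeval_C, map_eq_zero] at hy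
        apply h0
        rw [h1, hy, map_zero]
      · push Not at hall2
        obtain ⟨i, hi⟩ := hall2
        have h1 := totalDegree_pderiv_lt' h i hi
        exact ih _ (by omega) hi (hall i)
    · push Not at hall
      obtain ⟨i₀, hi₀⟩ := hall
      refine ⟨fun j => MvPolynomial.aeval y (MvPolynomial.pderiv j h), ?_, fun i => ?_⟩
      · intro hu
        exact hi₀ (congrFun hu i₀)
      · have h1 := Pool.Agent.Y988.NT.der_aeval (D i) y h
        rw [hy, map_zero] at h1
        rw [h1]
        exact Finset.sum_congr rfl fun j _ => mul_comm _ _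

/-- the polynomial `F (0, 1, Y)` is not zero -/
theorem restr_ne {k : ℕ} {F : MvPolynomial (Fin (k + 1 + 2)) ℂ} {d : ℕ} (hF : F.IsHomogeneous d)
    (h1 : MvPolynomial.eval (Pi.single (Fin.last (k + 1 + 1)) 1) F ≠ 0) :
    MvPolynomial.aeval (Fin.cons 0 (Fin.cons 1 MvPolynomial.X : Fin (k + 2) → _) :
      Fin (k + 1 + 2) → MvPolynomial (Fin (k + 1)) ℂ) F ≠ 0 := by
  intro h0
  obtain ⟨q, hq⟩ : ∃ q : Polynomial ℂ, q = MvPolynomial.aeval
    (Fin.cons 0 (Fin.cons Polynomial.X (Pi.single (Fin.last k) 1) : Fin (k + 2) → _) :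
      Fin (k + 1 + 2) → Polynomial ℂ) F := ⟨_, rfl⟩
  have hqe : ∀ s : ℂ, q.eval s = MvPolynomial.eval
      (Fin.cons 0 (Fin.cons s (Pi.single (Fin.last k) 1) : Fin (k + 2) → ℂ) :
        Fin (k + 1 + 2) → ℂ) F := by
    intro s
    rw [hq, ← Polynomial.coe_evalRingHom, MvPolynomial.aeval_def, MvPolynomial.hom_eval₂,
      MvPolynomial.eval, MvPolynomial.coe_eval₂Hom]
    congr 1
    · ext z
      simp
    · funext j
      refine Fin.cases ?_ (fun j => ?_) j
      · simp
      · refine Fin.cases ?_ (fun j => ?_) j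
        · simp
        · by_cases hj : j = Fin.last k
          · subst hj
            simp
          · simp [Pi.single_eq_of_ne hj]
  have hs : ∀ s : ℂ, s ≠ 0 → q.eval s = 0 := by
    intro s hs
    rw [hqe]
    have h2 := congrArg (MvPolynomial.eval (Pi.single (Fin.last k) (1 / s) : Fin (k + 1) → ℂ)) h0
    rw [map_zero, MvPolynomial.aeval_def, MvPolynomial.hom_eval₂] at h2
    have h3 := Pool.Agent.Y988.NT.aeval_smul_form hF s
      (Fin.cons 0 (Fin.cons 1 (Pi.single (Fin.last k) (1 / s)) : Fin (k + 2) → ℂ) :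
        Fin (k + 1 + 2) → ℂ)
    have h4 : (fun l => s * (Fin.cons 0 (Fin.cons 1 (Pi.single (Fin.last k) (1 / s)) :
        Fin (k + 2) → ℂ) : Fin (k + 1 + 2) → ℂ) l) =
        (Fin.cons 0 (Fin.cons s (Pi.single (Fin.last k) 1) : Fin (k + 2) → ℂ) :
          Fin (k + 1 + 2) → ℂ) := by
      funext j
      refine Fin.cases ?_ (fun j => ?_) j
      · simp
      · refine Fin.cases ?_ (fun j => ?_) j
        · simp
        · by_cases hj : j = Fin.last k
          · subst hj
            simp [hs]
          · simp [Pi.single_eq_of_ne hj]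
    have h5 : MvPolynomial.aeval (Fin.cons 0 (Fin.cons 1 (Pi.single (Fin.last k) (1 / s)) :
        Fin (k + 2) → ℂ) : Fin (k + 1 + 2) → ℂ) F = 0 := by
      rw [MvPolynomial.aeval_def]
      refine Eq.trans ?_ h2
      congr 1
      · ext z
        simp
      · funext j
        refine Fin.cases ?_ (fun j => ?_) j
        · simp
        · refine Fin.cases ?_ (fun j => ?_) j
          · simp
          · simp
    rw [h4, h5, mul_zero, MvPolynomial.aeval_eq_eval] at h3
    exact h3
  have hq0 : q = 0 := by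
    apply Polynomial.eq_zero_of_infinite_isRoot
    refine Set.Infinite.mono (s := {s : ℂ | s ≠ 0}) (fun s hs' => hs s hs') ?_
    have : {s : ℂ | s ≠ 0} = ({0} : Set ℂ)ᶜ := by ext; simp
    rw [this]
    exact (Set.finite_singleton 0).infinite_compl
  apply h1
  have h6 := hqe 0
  rw [hq0, Polynomial.eval_zero] at h6
  rw [h6]
  congr 2
  funext j
  refine Fin.cases ?_ (fun j => ?_) j
  · rw [Pi.single_eq_of_ne (by simp [Fin.ext_iff])]
    simp
  · refine Fin.cases ?_ (fun j => ?_) j
    · rw [Pi.single_eq_of_ne (by simp [Fin.ext_iff])]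
      simp
    · by_cases hj : j = Fin.last k
      · subst hj
        have : (Fin.last k).succ.succ = Fin.last (k + 1 + 1) := rfl
        rw [this, Pi.single_eq_same, ← this]
        simp
      · have : j.succ.succ ≠ Fin.last (k + 1 + 1) := by
          intro h
          apply hj
          exact Fin.succ_injective _ (Fin.succ_injective _ h)
        rw [Pi.single_eq_of_ne this]
        simp [Pi.single_eq_of_ne hj]

theorem det_inf {K : Type} [Field K] [Algebra ℂ K] {n : ℕ} (c : Fin (n + 2) → K)
    {p : Fin (n + 2) → K} (D : Fin n → Derivation ℂ K K) (hp0 : p 0 = 0)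
    (hp1 : p (Fin.succ 0) = 1) {u : Fin n → K} (hu : u ≠ 0)
    (h : ∀ i, ∑ j, D i (p j.succ.succ) * u j = 0) : (rows c p D).det = 0 := by
  rw [rows_eq]
  have hD : ∀ i, D i (p 0) = 0 ∧ D i (p (Fin.succ 0)) = 0 := by
    intro i
    rw [hp0, hp1]
    exact ⟨map_zero _, (D i).map_one_eq_zero⟩
  by_cases hc : c 0 = 0
  · apply Matrix.det_eq_zero_of_column_eq_zero 0
    intro i
    refine Fin.cases ?_ (fun i => ?_) i
    · exact hc
    · refine Fin.cases ?_ (fun i => ?_) i
      · exact hp0
      · exact (hD i).1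
  · rw [← Matrix.exists_mulVec_eq_zero_iff]
    obtain ⟨w1, hw1⟩ : ∃ w1, w1 = -∑ j, p j.succ.succ * u j := ⟨_, rfl⟩
    obtain ⟨w0, hw0⟩ : ∃ w0, w0 = -(c (Fin.succ 0) * w1 + ∑ j, c j.succ.succ * u j) / c 0 :=
      ⟨_, rfl⟩
    refine ⟨(Fin.cons w0 (Fin.cons w1 u : Fin (n + 1) → K) : Fin (n + 2) → K), ?_, ?_⟩
    · intro hz
      apply hu
      funext j
      exact congrFun hz j.succ.succ
    · funext i
      rw [Matrix.mulVec, dotProduct, Fin.sum_univ_succ, Fin.sum_univ_succ]
      simp only [Fin.cons_zero, Fin.cons_succ, Pi.zero_apply]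
      refine Fin.cases ?_ (fun i => ?_) i
      · simp only [mat_zero]
        rw [hw0]
        field_simp
        ring
      · refine Fin.cases ?_ (fun i => ?_) i
        · simp only [mat_one]
          rw [hp0, hp1, hw1]
          ring
        · simp only [mat_ss]
          rw [(hD i).1, (hD i).2, h i]
          ring

/-! ### the computation at a place -/

section loc

variable {n : ℕ} {Ω E : Type} [Field Ω] [Algebra ℂ Ω] [Field E] [Algebra ℂ E] [Algebra Ω E]
  [IsScalarTower ℂ Ω E] [IsAlgClosed Ω] [IsFF Ω E]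

theorem local_val (ha : StDERa) (hb : StDERb) {F : MvPolynomial (Fin (n + 2)) ℂ} {d : ℕ}
    (hF : F.IsHomogeneous d) {D : Fin n → Derivation ℂ Ω Ω} {δ : Fin n → Derivation ℂ E E}
    (hδ : ∀ i a, δ i (algebraMap Ω E a) = algebraMap Ω E (D i a)) {θ : Derivation Ω E E} {t : E}
    {v : Place Ω E} (ht : 0 < v.ord t) (hθ : θ t = 1) (hδt : ∀ i, δ i t = 0)
    {Y : Fin (n + 2) → E} {p : Fin (n + 2) → Ω} (hY : ∀ j, Val v (Y j) (p j))
    (hG : MvPolynomial.aeval Y F ≠ 0) :
    (v.ord (MvPolynomial.aeval Y F) = 0 →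
      Val v ((mat (fun j => t * θ (Y j)) Y (fun i j => δ i (Y j))).det /
        MvPolynomial.aeval Y F) 0) ∧
    (0 < v.ord (MvPolynomial.aeval Y F) → MvPolynomial.aeval p F = 0 ∧
      ∀ c : Fin (n + 2) → Ω,
      ∑ l, MvPolynomial.aeval p (MvPolynomial.pderiv l F) * c l = 1 →
      Val v ((mat (fun j => t * θ (Y j)) Y (fun i j => δ i (Y j))).det /
        MvPolynomial.aeval Y F) ((v.ord (MvPolynomial.aeval Y F) : Ω) / (v.ord t : Ω) *
          (rows c p D).det)) := by
  have hc0 : CharZero Ω := charZ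
  set G := MvPolynomial.aeval Y F with hGdef
  have hδY : ∀ i j, Val v (δ i (Y j)) (D i (p j)) := fun i j =>
    val_der ha (hδ i) ht (hδt i) (hY j)
  have hθY : ∀ j, Val v (t * θ (Y j)) 0 := fun j => val_tder hb ht hθ (hY j)
  have hGv : Val v G (MvPolynomial.aeval p F) := Val.aevalC hY F
  obtain ⟨M, hM⟩ : ∃ M, M = mat (fun j => t * θ (Y j)) Y (fun i j => δ i (Y j)) := ⟨_, rfl⟩
  obtain ⟨B, hB⟩ : ∃ B : Matrix (Fin (n + 2)) (Fin (n + 2)) Ω,
    B = mat (fun _ => 0) p (fun i j => D i (p j)) := ⟨_, rfl⟩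
  have hMB : ∀ i j, Val v (M i j) (B i j) := by
    intro i j
    rw [hM, hB]
    refine Fin.cases ?_ (fun i => ?_) i
    · exact hθY j
    · refine Fin.cases ?_ (fun i => ?_) i
      · exact hY j
      · exact hδY i j
  have hB0 : ∀ j, B 0 j = 0 := fun j => by rw [hB]; rfl
  rw [← hM]
  constructor
  · intro h0
    have h1 := Val.det M B hMB
    rw [Matrix.det_eq_zero_of_row_eq_zero 0 hB0] at h1
    have h2 : Ge v 0 G⁻¹ := Or.inr (by rw [v.ord_inv, h0]; simp)
    rw [div_eq_inv_mul]
    exact Val.reg_mul h2 h1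
  · intro hk
    have hFp : MvPolynomial.aeval p F = 0 := by
      refine hGv.uniq (Val.zero_iff.2 (Or.inr ?_))
      omega
    refine ⟨hFp, fun c hc => ?_⟩
    obtain ⟨g, hg⟩ : ∃ g : Fin (n + 2) → E,
      g = fun l => MvPolynomial.aeval Y (MvPolynomial.pderiv l F) := ⟨_, rfl⟩
    obtain ⟨C, hC⟩ : ∃ C : Fin (n + 2) → E, C = fun l => algebraMap Ω E (c l) := ⟨_, rfl⟩
    have hCv : ∀ j, Val v (C j) (c j) := fun j => by rw [hC]; exact Val.const _
    have hφ : Val v (∑ l, g l * C l) 1 := by
      rw [← hc]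
      refine Val.sum _ _ _ fun l _ => ?_
      rw [hg]
      exact (Val.aevalC hY _).mul (hCv l)
    have e1 : ∑ l, g l * Y l = d * G := by rw [hg]; exact euler_gen hF Y
    have e2 : ∀ i, ∑ l, g l * δ i (Y l) = δ i G := by
      intro i
      rw [hg, hGdef, Pool.Agent.Y988.NT.der_aeval]
    have e3 : ∑ l, g l * (t * θ (Y l)) = t * θ G := by
      have h1 := Pool.Agent.Y988.NT.der_aeval (θ.restrictScalars ℂ) Y F
      have h2 : (θ.restrictScalars ℂ) (MvPolynomial.aeval Y F) = θ G := rfl
      rw [h2] at h1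
      rw [h1, Finset.mul_sum, hg]
      refine Finset.sum_congr rfl fun l _ => ?_
      show _ = t * (_ * θ (Y l))
      ring
    have hcr := cram M g C
    rw [Fin.sum_univ_succ (fun i => (∑ l, g l * M i l) * (M.updateRow i C).det),
      Fin.sum_univ_succ (fun i : Fin (n + 1) =>
        (∑ l, g l * M i.succ l) * (M.updateRow i.succ C).det)] at hcr
    have f0 : ∑ l, g l * M 0 l = t * θ G := by rw [hM]; exact e3
    have f1 : ∑ l, g l * M (Fin.succ 0) l = d * G := by rw [hM]; exact e1
    have f2 : ∀ i : Fin n, ∑ l, g l * M i.succ.succ l = δ i G := by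
      intro i
      rw [hM]
      exact e2 i
    rw [f0, f1] at hcr
    simp only [f2] at hcr
    have hcr2 : (∑ l, g l * C l) * (M.det / G) =
        t * θ G / G * (M.updateRow 0 C).det + (d * (M.updateRow (Fin.succ 0) C).det +
          ∑ i : Fin n, δ i G / G * (M.updateRow i.succ.succ C).det) := by
      have h1 : ∑ i : Fin n, δ i G / G * (M.updateRow i.succ.succ C).det =
          (∑ i : Fin n, δ i G * (M.updateRow i.succ.succ C).det) / G := by
        rw [Finset.sum_div]
        exact Finset.sum_congr rfl fun i _ => by ring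
      rw [h1, ← mul_div_assoc, hcr]
      field_simp
    have hreg : ∀ i, Ge v 0 (δ i G / G) := by
      intro i
      have h1 := ha Ω E (D i) (δ i) (hδ i) t v ht (hδt i) (v.ord G) G (Or.inr le_rfl)
      have h2 : Ge v (-v.ord G) G⁻¹ := Or.inr (by rw [v.ord_inv])
      have h3 := Ge.mul h1 h2
      rw [add_neg_cancel] at h3
      rwa [div_eq_mul_inv]
    have hup : ∀ i, Val v (M.updateRow i C).det (B.updateRow i c).det := by
      intro i
      refine Val.det _ _ fun i' j => ?_
      rw [Matrix.updateRow_apply, Matrix.updateRow_apply]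
      split_ifs
      · exact hCv j
      · exact hMB i' j
    have hup0 : ∀ i, i ≠ 0 → Val v (M.updateRow i C).det 0 := by
      intro i hi
      have h1 := hup i
      have h2 : (B.updateRow i c).det = 0 := Matrix.det_eq_zero_of_row_eq_zero 0 (fun j => by
        rw [Matrix.updateRow_ne (Ne.symm hi)]; exact hB0 j)
      rwa [h2] at h1
    have hrow : B.updateRow 0 c = rows c p D := by
      rw [hB, rows_eq]
      ext i j
      rw [Matrix.updateRow_apply]
      refine Fin.cases ?_ (fun i => ?_) i
      · rw [if_pos rfl]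
        rfl
      · rw [if_neg (Fin.succ_ne_zero i)]
        rfl
    have k1 : Val v (t * θ G / G * (M.updateRow 0 C).det)
        ((v.ord G : Ω) / (v.ord t : Ω) * (rows c p D).det) := by
      have h1 := (val_log hb ht hθ hG).mul (hup 0)
      rwa [hrow] at h1
    have k2 : Val v (d * (M.updateRow (Fin.succ 0) C).det) 0 :=
      Val.reg_mul (Ge.natCast d) (hup0 _ (Fin.succ_ne_zero 0))
    have k3 : Val v (∑ i : Fin n, δ i G / G * (M.updateRow i.succ.succ C).det) 0 := by
      have h1 := Val.sum (v := v) Finset.univ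
        (fun i : Fin n => δ i G / G * (M.updateRow i.succ.succ C).det) (fun _ => 0)
        (fun i _ => Val.reg_mul (hreg i) (hup0 _ (Fin.succ_ne_zero _)))
      simpa using h1
    have k5 := k1.add (k2.add k3)
    rw [← hcr2] at k5
    have k6 := (hφ.inv one_ne_zero).mul k5
    obtain ⟨hφ0, -⟩ := hφ.ord_eq one_ne_zero
    rw [← mul_assoc, inv_mul_cancel₀ hφ0, one_mul] at k6
    simpa using k6

end loc

end Pool.Agent.N887.HN
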